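import Pool.Agent.MP_3ee8cb_gt.CZG.Deg
import Pool.Agent.MP_3ee8cb_gt.CZ.Spec
import Pool.Agent.MP_3ee8cb_gt.CZP.Brg
import Pool.Agent.MP_3ee8cb_gt.CZI.Dom

/-! Gauss-Bonnet for a Lipschitz front. -/

namespace Pool.Agent.MP_3ee8cb_gt.CZG

open Set MeasureTheory Filter Topology Metric D3 CZ
open D3GB (bv)
open D3MO (S2)
open D3NB (Ph)

noncomputable section

open Classical in
/-- The radial projection. -/
def rt (v : V) : S2 :=
  if h : v = 0 then ⟨bv 0, by simp [bv]⟩ else ⟨‖v‖⁻¹ • v, D3GB.RAPP.unit_mem h⟩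

theorem rt_val {v : V} (h : v ≠ 0) : (rt v).1 = ‖v‖⁻¹ • v := by rw [rt, dif_neg h]

theorem rt_one {v : V} (h : v ∈ sphere (0 : V) 1) : (rt v).1 = v := by
  rw [rt_val (D3GB.Asm.ne_of_mem h), mem_sphere_zero_iff_norm.1 h, inv_one, one_smul]

theorem rt_c : ContinuousOn rt {0}ᶜ := by
  rw [IsInducing.subtypeVal.continuousOn_iff]
  exact ((continuousOn_id.norm.inv₀ fun v h => norm_ne_zero_iff.2 h).smul continuousOn_id).congr
    fun v h => rt_val h

/-- An injective map of the sphere has a continuous left inverse. -/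
theorem linv {g : S2 → V} (c : Continuous g) (u : ∀ q, ‖g q‖ = 1) (i : Function.Injective g) :
    ∃ L : V → V, ContinuousOn L (sphere 0 1) ∧
      ∀ p ∈ sphere (0 : V) 1, ‖L p‖ = 1 ∧ L (g (rt p)) = p := by
  have n : ∀ v : V, ‖‖v‖ • g (rt v)‖ = ‖v‖ := fun v => by rw [norm_smul, u, mul_one, norm_norm]
  have o : IsOpen ((fun v : V => ‖v‖ • g (rt v)) '' {0}ᶜ) :=
    CZI.isOpen_image rfl isOpen_compl_singleton
      (continuousOn_id.norm.smul (c.comp_continuousOn rt_c)) fun v h w k e => by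
        have e1 : ‖v‖ = ‖w‖ := by rw [← n v, ← n w]; exact congrArg _ e
        have e2 : ‖v‖ • g (rt v) = ‖v‖ • g (rt w) := e.trans (by rw [e1])
        have e3 := congrArg Subtype.val
          (i (smul_right_injective _ (norm_ne_zero_iff.2 h) e2))
        rw [rt_val h, rt_val k, ← e1] at e3
        exact smul_right_injective _ (inv_ne_zero (norm_ne_zero_iff.2 h)) e3
  have s : ∀ p : S2, ∃ q, g q = p := fun p => by
    by_contra k
    have m : ∀ q : S2, g q ∈ (fun v : V => ‖v‖ • g (rt v)) '' {0}ᶜ := fun q =>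
      ⟨q, D3GB.Asm.ne_of_mem q.2, by
        simp only [mem_sphere_zero_iff_norm.1 q.2, one_smul, Subtype.ext (rt_one q.2)]⟩
    obtain ⟨_, h1, ⟨v, -, rfl⟩, h2⟩ := isPreconnected_sphere (E := V) (by
      rw [← Module.finrank_eq_rank]
      simp) 0 1 _ _ o (isCompact_range c).isClosed.isOpen_compl
      (fun y _ => (em (y ∈ range g)).imp (fun ⟨q, e⟩ => e ▸ m q) id)
      ⟨g p, mem_sphere_zero_iff_norm.2 (u p), m p⟩ ⟨p, p.2, k⟩
    rw [mem_sphere_zero_iff_norm, n] at h1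
    exact h2 ⟨rt v, by simp only [h1, one_smul]⟩
  let e : S2 ≃ S2 := .ofBijective (fun q => ⟨g q, mem_sphere_zero_iff_norm.2 (u q)⟩)
    ⟨fun a b k => i (congrArg Subtype.val k), fun p => (s p).imp fun q k => Subtype.ext k⟩
  have ce : Continuous e := c.subtype_mk _
  refine ⟨fun v => (e.symm (rt v)).1, (continuous_subtype_val.comp
    (ce.homeoOfEquivCompactToT2.symm.continuous)).comp_continuousOn
      (rt_c.mono fun p => D3GB.Asm.ne_of_mem), fun p h =>
    ⟨mem_sphere_zero_iff_norm.1 (e.symm _).2, ?_⟩⟩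
  have : rt (g (rt p)) = e (rt p) := Subtype.ext (rt_one (mem_sphere_zero_iff_norm.2 (u _)))
  simp only [this, e.symm_apply_apply, rt_one h]

theorem rGB : R_GB := by
  intro _ m lg σ a hi b T G K Om Om0 D ζ R l z0 z1
  have A := D.atl
  have h : NLA Om Om0 K := ⟨A.op, A.ms, A.sub, A.lip,
    fun x hx => (CZP.img_eq A).1.subset (mem_image_of_mem K hx), A.bij.injOn,
    fun C f lC lf Q hQ h0 hz => CZP.nlA (CZP.at_of D.ok A D.geo) A hQ h0 lC lf hz⟩
  have j : Jmp ζ (Real.exp (-R)) (Real.exp R) := ⟨Real.exp_pos _,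
    fun q k e => z0 q k ((Real.log_le_iff_le_exp (norm_pos_iff.2 k)).2 e),
    fun q k e => z1 q k ((Real.le_log_iff_exp_le (norm_pos_iff.2 k)).2 e)⟩
  have ne := fun p => D3GB.Asm.ne_of_mem (p := p)
  have cs : ContinuousOn (fun v : V => σ (‖v‖⁻¹ • v)) {0}ᶜ :=
    D.geo.c0.comp ((continuousOn_id.norm.inv₀ fun v h => norm_ne_zero_iff.2 h).smul
      continuousOn_id) fun v k => ne _ (D3GB.RAPP.unit_mem k)
  have cP : ContinuousOn (Ph m σ) {0}ᶜ :=
    D.ok.cZ.continuous.comp_continuousOn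
      ((continuousOn_id.norm.log fun v h => norm_ne_zero_iff.2 h).prodMk cs)
  obtain ⟨L, c4, c5⟩ := linv (g := G 0) (D.tx.cG.comp (.prodMk_right 0)) (D.tx.unit 0) (D.tx.inj 0)
  obtain ⟨i, e⟩ := h.gb D.ok (y := fun v => (Ph m σ v).1) (w := fun v => (Ph m σ v).2)
    (κ := fun q => G ((1 - q.1) • (σ q.2).1) (rt q.2)) j l
    (lip_comp D.geo.lip Prod.snd fun _ _ => contDiffAt_snd)
    (lip_comp D.geo.lip Prod.fst fun _ _ => contDiffAt_fst)
    (fun v k => by
      have := D3GB.RAPP.unit_mem k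
      rw [Ph, D.jac.norm, D.geo.norm _ (ne _ this), mem_sphere_zero_iff_norm.1 this])
    cP.snd (D.tx.cG.comp_continuousOn (((by fun_prop : ContinuousOn (fun q : ℝ × V => 1 - q.1) _).smul
      (D.geo.c0.comp continuousOn_snd fun q k => ne _ k.2).fst).prodMk
        (rt_c.comp continuousOn_snd fun q k => ne _ k.2)))
    (fun _ _ _ _ => D.tx.unit _ _) (fun p k => by
      have := D.tx.on (rt p) 0
      simp only [cc, D.ok.zero, rt_one k] at this
      simp only [Ph, mem_sphere_zero_iff_norm.1 k, Real.log_one, D.ok.zero, inv_one, one_smul,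
        sub_zero, this]) c4 fun p k => by simpa using c5 p k
  have q : eul m (ζ ∘ K) ((fun v => (Ph m σ v).1) ∘ K) ((fun v => (Ph m σ v).2) ∘ K)
      =ᵐ[volume.restrict Om0] CZH.eul m (PK m σ K) fun u => ζ (K u) := by
    filter_upwards [h.ae D.geo.lip] with x hx
    have e1 : fderiv ℝ ((fun v => (Ph m σ v).1) ∘ K) x = _ := hx.2.hasFDerivAt.fst.fderiv
    have e2 : fderiv ℝ ((fun v => (Ph m σ v).2) ∘ K) x = _ := hx.2.hasFDerivAt.snd.fderiv
    simp only [eul, cy, e1, e2]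
    rfl
  exact ⟨i.congr q, by rw [← integral_congr_ae q]; exact (le_abs_self _).trans e⟩

end

end Pool.Agent.MP_3ee8cb_gt.CZG
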