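import Pool.Agent.MP_3ee8cb_gt.CZG.Const
import Pool.Agent.MP_3ee8cb_gt.D3LM.Lip
import Pool.Agent.MP_3ee8cb_gt.D3NP.KSpec
import Pool.Agent.MP_3ee8cb_gt.D3GB.All

/-! Gauss-Bonnet on a Lipschitz atlas: definitions and the null Lagrangian lemmas. -/

namespace Pool.Agent.MP_3ee8cb_gt.CZG

open Set MeasureTheory Filter Topology Metric D3
open D3GB (trip bv aO Sph jac)
open D3NP (dv)
open scoped RealInnerProductSpace

noncomputable section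

/-- An atlas with one chart domain on which null Lagrangians integrate to zero. -/
structure NLA (O O₀ : Set V) (K : V → V) : Prop where
  op : IsOpen O
  ms : MeasurableSet O₀
  sub : O₀ ⊆ O
  lip : LocallyLipschitzOn O K
  ne : ∀ x ∈ O, K x ≠ 0
  inj : InjOn K O₀
  nl : ∀ C f : V → V, LocallyLipschitzOn O (C ∘ K) → LocallyLipschitzOn O (f ∘ K) →
    ∀ Q : Set V, IsCompact Q → 0 ∉ Q → (∀ a, a ≠ 0 → a ∉ Q → f a = 0) →
      IntegrableOn (dv (C ∘ K) (f ∘ K)) O₀ ∧ ∫ x in O₀, dv (C ∘ K) (f ∘ K) x = 0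

/-- The product of a one-form and a two-form on the basis. -/
def cy (l : V →L[ℝ] ℝ) (b : V → V → ℝ) : ℝ :=
  l (bv 0) * b (bv 1) (bv 2) + l (bv 1) * b (bv 2) (bv 0) + l (bv 2) * b (bv 0) (bv 1)

/-- `dζ ∧ H^* vol`. -/
def wv (ζ : V → ℝ) (H : V → V) (x : V) : ℝ :=
  cy (fderiv ℝ ζ x) fun u v => trip (H x) (fderiv ℝ H x u) (fderiv ℝ H x v)

/-- `dζ ∧ dβ ∧ dγ`. -/
def tv (ζ β γ : V → ℝ) (x : V) : ℝ := cy (fderiv ℝ ζ x) fun u v =>
  fderiv ℝ β x u * fderiv ℝ γ x v - fderiv ℝ β x v * fderiv ℝ γ x u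

/-- `dζ ∧ e` for the Euler form `e`. -/
def eul (m : MF) (ζ : V → ℝ) (y w : V → V) (x : V) : ℝ := cy (fderiv ℝ ζ x) fun u v =>
  trip (w x) (fderiv ℝ w x u + m.om (y x) (fderiv ℝ y x u) (w x))
    (fderiv ℝ w x v + m.om (y x) (fderiv ℝ y x v) (w x)) -
  ⟪w x, aO m (y x) (fderiv ℝ y x u) (fderiv ℝ y x v)⟫

/-- `ζ` goes from `0` to `1`. -/
structure Jmp (ζ : V → ℝ) (r R : ℝ) : Prop where
  pos : 0 < r
  zero : ∀ a, a ≠ 0 → ‖a‖ ≤ r → ζ a = 0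
  one : ∀ a, a ≠ 0 → R ≤ ‖a‖ → ζ a = 1

/-- The standard jump. -/
def st (c : ℝ) (a : V) : ℝ := Real.smoothTransition (‖a‖ / c - 1)

variable {O O₀ : Set V} {K : V → V}

theorem st0 {c : ℝ} (hc : 0 < c) {a : V} (h : ‖a‖ ≤ c) : st c a = 0 :=
  Real.smoothTransition.zero_of_nonpos (by rw [sub_nonpos, div_le_one hc]; exact h)

theorem st1 {c : ℝ} (hc : 0 < c) {a : V} (h : 2 * c ≤ ‖a‖) : st c a = 1 :=
  Real.smoothTransition.one_of_one_le (by rw [le_sub_iff_add_le, le_div_iff₀ hc]; linarith)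

theorem st_j {c : ℝ} (hc : 0 < c) : Jmp (st c) c (2 * c) :=
  ⟨hc, fun _ _ => st0 hc, fun _ _ => st1 hc⟩

theorem st_c (c : ℝ) {a : V} (ha : a ≠ 0) : ContDiffAt ℝ 1 (st c) a :=
  Real.smoothTransition.contDiffAt.comp a (((contDiffAt_norm ℝ ha).div_const c).sub
    contDiffAt_const)

theorem lip_comp {E F : Type} [NormedAddCommGroup E] [NormedSpace ℝ E] [NormedAddCommGroup F]
    [NormedSpace ℝ F] {g : V → E} (hg : LocallyLipschitzOn O g) (Φ : E → F)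
    (h : ∀ x ∈ O, ContDiffAt ℝ 1 Φ (g x)) : LocallyLipschitzOn O fun x => Φ (g x) := by
  intro x hx
  obtain ⟨L, t, ht, hL⟩ := hg hx
  obtain ⟨M, u, hu, hM⟩ := (h x hx).exists_lipschitzOnWith
  exact ⟨M * L, t ∩ g ⁻¹' u, inter_mem ht (hg.continuousOn x hx hu),
    hM.comp (hL.mono inter_subset_left) fun _ k => k.2⟩

theorem lip_prod {E F : Type} [NormedAddCommGroup E] [NormedAddCommGroup F] {g : V → E}
    {h : V → F} (hg : LocallyLipschitzOn O g) (hh : LocallyLipschitzOn O h) :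
    LocallyLipschitzOn O fun x => (g x, h x) := by
  intro x hx
  obtain ⟨L, t, ht, hL⟩ := hg hx
  obtain ⟨M, u, hu, hM⟩ := hh hx
  exact ⟨max L M, t ∩ u, inter_mem ht hu,
    (hL.mono inter_subset_left).prodMk (hM.mono inter_subset_right)⟩

theorem NLA.al (h : NLA O O₀ K) {F : Type} [NormedAddCommGroup F] [NormedSpace ℝ F] {f : V → F}
    (hf : ∀ a, a ≠ 0 → ContDiffAt ℝ 1 f a) : LocallyLipschitzOn O (f ∘ K) :=
  lip_comp h.lip f fun x hx => hf _ (h.ne x hx)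

theorem NLA.ae (h : NLA O O₀ K) {F : Type} [NormedAddCommGroup F] [NormedSpace ℝ F]
    [FiniteDimensional ℝ F] {g : V → F} (hg : LocallyLipschitzOn O g) :
    ∀ᵐ x ∂volume.restrict O₀, x ∈ O ∧ DifferentiableAt ℝ g x := by
  filter_upwards [ae_restrict_mem h.ms, ae_restrict_of_ae (D3LM.ae_diff volume h.op hg)]
    with x h1 h2 using ⟨h.sub h1, h2 (h.sub h1)⟩

/-- A property that holds on an open set of nonzero vectors holds near `x`. -/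
theorem NLA.ev (h : NLA O O₀ K) {x : V} (hx : x ∈ O) {U : Set ℝ} (hU : IsOpen U)
    (hm : ‖K x‖ ∈ U) {p : V → Prop} (hp : ∀ a, a ≠ 0 → ‖a‖ ∈ U → p a) : ∀ᶠ z in 𝓝 x, p (K z) := by
  filter_upwards [h.op.mem_nhds hx, ((h.lip.continuousOn x hx).continuousAt
    (h.op.mem_nhds hx)).norm (hU.mem_nhds hm)] with z h1 h2 using hp _ (h.ne z h1) h2

theorem fd0 {ζ : V → ℝ} {x : V} {c : ℝ} (h : ∀ᶠ z in 𝓝 x, ζ z = c) : fderiv ℝ ζ x = 0 := by
  rw [EventuallyEq.fderiv_eq (f := fun _ => c) h]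
  simp

theorem NLA.fd (h : NLA O O₀ K) {F : Type} [NormedAddCommGroup F] [NormedSpace ℝ F] {x : V}
    (hx : x ∈ O) {U : Set ℝ} (hU : IsOpen U) (hm : ‖K x‖ ∈ U) (f g : V → F)
    (hp : ∀ a, a ≠ 0 → ‖a‖ ∈ U → f a = g a) : fderiv ℝ (f ∘ K) x = fderiv ℝ (g ∘ K) x :=
  EventuallyEq.fderiv_eq (h.ev hx hU hm hp)

theorem cy0 (b : V → V → ℝ) : cy 0 b = 0 := by simp [cy]

theorem Jmp.fd (h : NLA O O₀ K) {ζ : V → ℝ} {r R : ℝ} (j : Jmp ζ r R) {x : V} (hx : x ∈ O)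
    (hm : ‖K x‖ < r ∨ R < ‖K x‖) : fderiv ℝ (ζ ∘ K) x = 0 :=
  hm.elim (fun k => fd0 (h.ev hx isOpen_Iio k fun a h1 h2 => j.zero a h1 (le_of_lt h2)))
    fun k => fd0 (h.ev hx isOpen_Ioi k fun a h1 h2 => j.one a h1 (le_of_lt h2))

theorem shell (r R : ℝ) : IsCompact {a : V | ‖a‖ ∈ Icc r R} :=
  (isCompact_closedBall 0 R).of_isClosed_subset (isClosed_Icc.preimage continuous_norm)
    fun _ k => mem_closedBall_zero_iff.2 k.2

theorem perp {H : V → V} {x : V} (hH : DifferentiableAt ℝ H x) (hu : ∀ᶠ z in 𝓝 x, ‖H z‖ = 1)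
    (e : V) : ⟪H x, fderiv ℝ H x e⟫ = 0 := by
  have h1 := fderiv_inner_apply ℝ hH hH e
  rw [fd0 (c := 1) (hu.mono fun z k => by rw [real_inner_self_eq_norm_sq, k, one_pow]),
    real_inner_comm (H x)] at h1
  simp only [zero_apply] at h1
  linarith

theorem trip_perp {n a b c : V} (hn : ⟪n, n⟫ = 1) (ha : ⟪n, a⟫ = 0) (hb : ⟪n, b⟫ = 0)
    (hc : ⟪n, c⟫ = 0) : trip a b c = 0 := by
  simp only [D3GB.RP2.inner3] at hn ha hb hc
  unfold trip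
  linear_combination (-(a 0 * (b 1 * c 2 - b 2 * c 1) + a 1 * (b 2 * c 0 - b 0 * c 2) +
    a 2 * (b 0 * c 1 - b 1 * c 0))) * hn + (n 0 * (b 1 * c 2 - b 2 * c 1) +
    n 1 * (b 2 * c 0 - b 0 * c 2) + n 2 * (b 0 * c 1 - b 1 * c 0)) * ha +
    (n 0 * (c 1 * a 2 - c 2 * a 1) + n 1 * (c 2 * a 0 - c 0 * a 2) +
    n 2 * (c 0 * a 1 - c 1 * a 0)) * hb + (n 0 * (a 1 * b 2 - a 2 * b 1) +
    n 1 * (a 2 * b 0 - a 0 * b 2) + n 2 * (a 0 * b 1 - a 1 * b 0)) * hc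

theorem dv_wv {η : V → ℝ} {H : V → V} {x : V} (h1 : DifferentiableAt ℝ η x)
    (h2 : DifferentiableAt ℝ H x) (hu : ∀ᶠ z in 𝓝 x, ‖H z‖ = 1) :
    dv H (fun z => η z • H z) x = wv η H x := by
  have n : ⟪H x, H x⟫ = 1 := by rw [real_inner_self_eq_norm_sq, hu.self_of_nhds, one_pow]
  have t := fun a b c => trip_perp n (perp h2 hu a) (perp h2 hu b) (perp h2 hu c)
  have t1 := t (bv 0) (bv 1) (bv 2)
  simp only [dv, wv, cy, fderiv_fun_smul h1 h2, add_apply, smul_apply,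
    ContinuousLinearMap.smulRight_apply, trip, PiLp.add_apply, PiLp.smul_apply, smul_eq_mul] at t1 ⊢
  linear_combination 3 * η x * t1

variable {η ζ ζ' : V → ℝ} {H : V → V} {r R r' R' : ℝ}

theorem NLA.wv0 (h : NLA O O₀ K) (l1 : LocallyLipschitzOn O (η ∘ K))
    (l2 : LocallyLipschitzOn O (H ∘ K)) (hu : ∀ a, a ≠ 0 → ‖H a‖ = 1) (hr : 0 < r)
    (h0 : ∀ a, a ≠ 0 → ‖a‖ ∉ Icc r R → η a = 0) :
    IntegrableOn (wv (η ∘ K) (H ∘ K)) O₀ ∧ ∫ x in O₀, wv (η ∘ K) (H ∘ K) x = 0 := by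
  obtain ⟨i, z⟩ := h.nl H (fun a => η a • H a) l2
    (lip_comp (lip_prod l1 l2) (fun q : ℝ × V => q.1 • q.2) fun _ _ => by fun_prop) _ (shell r R)
    (fun k => by simpa using k.1.trans_lt' hr) fun a h1 h2 => by rw [h0 a h1 h2, zero_smul]
  have e : dv (H ∘ K) ((fun a => η a • H a) ∘ K) =ᵐ[volume.restrict O₀] wv (η ∘ K) (H ∘ K) := by
    filter_upwards [h.ae l1, h.ae l2] with x h1 h2
    exact dv_wv h1.2 h2.2 (h.ev h1.1 isOpen_univ trivial fun a k _ => hu a k)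
  exact ⟨i.congr e, by rw [← integral_congr_ae e, z]⟩

theorem lip_sub {f g : V → ℝ} (l1 : LocallyLipschitzOn O f) (l2 : LocallyLipschitzOn O g) :
    LocallyLipschitzOn O fun x => f x - g x :=
  lip_comp (lip_prod l1 l2) (fun q : ℝ × ℝ => q.1 - q.2) fun _ _ => by fun_prop

theorem Jmp.sub (j : Jmp ζ r R) (j' : Jmp ζ' r' R') (a : V) (h1 : a ≠ 0)
    (h2 : ‖a‖ ∉ Icc (min r r') (max R R')) : ζ a - ζ' a = 0 := by
  rcases not_and_or.1 h2 with k | k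
  · rw [not_le, lt_min_iff] at k
    rw [j.zero a h1 k.1.le, j'.zero a h1 k.2.le, sub_self]
  · rw [not_le, max_lt_iff] at k
    rw [j.one a h1 k.1.le, j'.one a h1 k.2.le, sub_self]

theorem NLA.wv_int (h : NLA O O₀ K) (j : Jmp ζ r R) (l1 : LocallyLipschitzOn O (ζ ∘ K))
    (l2 : LocallyLipschitzOn O (H ∘ K)) (hu : ∀ a, a ≠ 0 → ‖H a‖ = 1) :
    IntegrableOn (wv (ζ ∘ K) (H ∘ K)) O₀ := by
  have c : 0 < |R| + 1 := by positivity
  have i := (h.wv0 (η := fun a => ζ a - st (|R| + 1) a) (lip_sub l1 (h.al fun _ => st_c _)) l2 hu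
    (lt_min j.pos c) (j.sub (st_j c))).1
  have o : IsOpen (O ∩ K ⁻¹' ball 0 (|R| + 1)) :=
    h.lip.continuousOn.isOpen_inter_preimage h.op isOpen_ball
  refine (i.indicator o.measurableSet).congr ((ae_restrict_mem h.ms).mono fun x hx => ?_)
  have hx := h.sub hx
  by_cases k : ‖K x‖ < |R| + 1
  · rw [indicator_of_mem (mem_inter hx (mem_preimage.2 (mem_ball_zero_iff.2 k))), wv, wv,
      h.fd hx isOpen_Iio k _ ζ fun a _ h2 => by rw [st0 c (le_of_lt h2), sub_zero]]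
  · rw [indicator_of_notMem fun e => k (mem_ball_zero_iff.1 e.2), wv,
      j.fd h hx (.inr (by linarith [le_abs_self R])), cy0]

theorem NLA.wv_eq (h : NLA O O₀ K) (j : Jmp ζ r R) (j' : Jmp ζ' r' R')
    (l1 : LocallyLipschitzOn O (ζ ∘ K)) (l1' : LocallyLipschitzOn O (ζ' ∘ K))
    (l2 : LocallyLipschitzOn O (H ∘ K)) (hu : ∀ a, a ≠ 0 → ‖H a‖ = 1) :
    ∫ x in O₀, wv (ζ ∘ K) (H ∘ K) x = ∫ x in O₀, wv (ζ' ∘ K) (H ∘ K) x := by
  rw [← sub_eq_zero, ← integral_sub (h.wv_int j l1 l2 hu) (h.wv_int j' l1' l2 hu),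
    ← (h.wv0 (η := fun a => ζ a - ζ' a) (lip_sub l1 l1') l2 hu (lt_min j.pos j'.pos)
      (j.sub j')).2]
  refine integral_congr_ae ?_
  filter_upwards [h.ae l1, h.ae l1'] with x h1 h2
  have : fderiv ℝ ((fun a => ζ a - ζ' a) ∘ K) x = fderiv ℝ (ζ ∘ K) x - fderiv ℝ (ζ' ∘ K) x :=
    fderiv_fun_sub h1.2 h2.2
  simp only [wv, cy, this, sub_apply]
  ring

theorem NLA.tv0 (h : NLA O O₀ K) {β γ : V → ℝ} (j : Jmp ζ r R) (l1 : LocallyLipschitzOn O (ζ ∘ K))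
    (l2 : LocallyLipschitzOn O (β ∘ K)) (l3 : LocallyLipschitzOn O (γ ∘ K)) :
    IntegrableOn (tv (ζ ∘ K) (β ∘ K) (γ ∘ K)) O₀ ∧
      ∫ x in O₀, tv (ζ ∘ K) (β ∘ K) (γ ∘ K) x = 0 := by
  have c : 0 < |R| + 1 := by positivity
  have c' : 0 < r / 4 := by linarith [j.pos]
  have l4 : LocallyLipschitzOn O ((fun a => (st (r / 4) a - st (|R| + 1) a) * β a) ∘ K) :=
    lip_comp (lip_prod (lip_sub (h.al fun _ => st_c _) (h.al fun _ => st_c _)) l2)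
      (fun q : ℝ × ℝ => q.1 * q.2) fun _ _ => by fun_prop
  obtain ⟨i, z⟩ := h.nl (fun a => γ a • bv 1 + ζ a • bv 2)
    (fun a => ((st (r / 4) a - st (|R| + 1) a) * β a) • bv 0)
    (lip_comp (lip_prod l3 l1) (fun q : ℝ × ℝ => q.1 • bv 1 + q.2 • bv 2) fun _ _ => by fun_prop)
    (lip_comp l4 (fun q : ℝ => q • bv 0) fun _ _ => by fun_prop) _ (shell _ _)
    (fun k => by simpa using k.1.trans_lt' (lt_min c' c)) fun a h1 h2 => by
      rw [(st_j c').sub (st_j c) a h1 h2, zero_mul, zero_smul]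
  have e : dv ((fun a => γ a • bv 1 + ζ a • bv 2) ∘ K)
      ((fun a => ((st (r / 4) a - st (|R| + 1) a) * β a) • bv 0) ∘ K) =ᵐ[volume.restrict O₀]
        tv (ζ ∘ K) (β ∘ K) (γ ∘ K) := by
    filter_upwards [h.ae l1, h.ae l3, h.ae l4] with x h1 h3 h4
    have e1 : fderiv ℝ ((fun a => γ a • bv 1 + ζ a • bv 2) ∘ K) x = _ :=
      ((h3.2.hasFDerivAt.smul_const (bv 1)).add (h1.2.hasFDerivAt.smul_const (bv 2))).fderiv
    have e2 : fderiv ℝ ((fun a => ((st (r / 4) a - st (|R| + 1) a) * β a) • bv 0) ∘ K) x = _ :=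
      (h4.2.hasFDerivAt.smul_const (bv 0)).fderiv
    have b : ∀ i j : Fin 3, bv i j = if j = i then 1 else 0 := fun i j => by simp [bv]
    simp only [dv, e1, e2, trip, add_apply, ContinuousLinearMap.smulRight_apply, PiLp.add_apply,
      PiLp.smul_apply, smul_eq_mul, b, tv, cy]
    by_cases k : ‖K x‖ ∈ Ioo (r / 2) (|R| + 1)
    · rw [h.fd h1.1 isOpen_Ioo k _ β fun a _ h2 => by
        rw [st1 c' (by linarith [h2.1]), st0 c h2.2.le, sub_zero, one_mul]]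
      simp
      ring
    · rw [j.fd h h1.1 ((not_and_or.1 k).imp (fun k => by linarith [j.pos, not_lt.1 k])
        fun k => by linarith [le_abs_self R, not_lt.1 k])]
      simp
  exact ⟨i.congr e, by rw [← integral_congr_ae e, z]⟩

end

end Pool.Agent.MP_3ee8cb_gt.CZG
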