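import Pool.Agent.MP_3ee8cb_gt.D3LM.Area

/-! The signed number of preimages is a constant integer when its weak gradient vanishes. -/

namespace Pool.Agent.MP_3ee8cb_gt.CZG

open Set MeasureTheory Filter Topology Function Metric
open scoped ENNReal Convolution

variable {W : Type} [NormedAddCommGroup W] [NormedSpace ℝ W] [FiniteDimensional ℝ W]
  [MeasurableSpace W] [BorelSpace W] (μ : Measure W) [μ.IsAddHaarMeasure]

/-- Test functions supported in `A`. -/
def Tst (A : Set W) (φ : W → ℝ) : Prop := ContDiff ℝ 1 φ ∧ HasCompactSupport φ ∧ tsupport φ ⊆ A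

theorem const0 {N : W → ℝ} {U A : Set W} {r : ℝ} (hN : Integrable N μ) (hU : IsOpen U)
    (hc : IsPreconnected U) (hr : 0 < r) (hA : ∀ y ∈ U, closedBall y r ⊆ A)
    (h : ∀ φ, Tst A φ → ∀ ξ, ∫ x, fderiv ℝ φ x ξ * N x ∂μ = 0) :
    ∃ c, ∀ᵐ x ∂μ, x ∈ U → N x = c := by
  have : ProperSpace W := FiniteDimensional.proper_real W
  let b : ℕ → ContDiffBump (0 : W) := fun i => ⟨r / (i + 1) / 2, r / (i + 1), by positivity,
    half_lt_self (by positivity)⟩
  have key : ∀ i, ∃ c, ∀ y ∈ U, ((b i).normed μ ⋆[ContinuousLinearMap.lsmul ℝ ℝ, μ] N) y = c := by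
    intro i
    have c1 : ContDiff ℝ 1 ((b i).normed μ) := (b i).contDiff_normed
    have cs := (b i).hasCompactSupport_normed (μ := μ)
    have d := fun y => cs.hasFDerivAt_convolution_left (ContinuousLinearMap.lsmul ℝ ℝ) c1
      hN.locallyIntegrable y
    refine hU.exists_is_const_of_fderiv_eq_zero (𝕜 := ℝ) hc
      (fun y _ => (d y).differentiableAt.differentiableWithinAt) fun y hy => ?_
    rw [(d y).fderiv]
    ext ξ
    have e := h (fun x => (b i).normed μ (y - x)) ⟨c1.comp (contDiff_const.sub contDiff_id),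
      cs.comp_homeomorph (Homeomorph.subLeft y), ?_⟩ (-ξ)
    · have ex := (cs.fderiv (𝕜 := ℝ)).convolutionExists_left
        ((ContinuousLinearMap.lsmul ℝ ℝ).precompL W) (c1.continuous_fderiv one_ne_zero)
        hN.locallyIntegrable y
      rw [convolution_eq_swap, ContinuousLinearMap.integral_apply ex.integrable_swap,
        Pi.zero_apply, zero_apply, ← e]
      refine integral_congr_ae (Eventually.of_forall fun x => ?_)
      have := ((c1.differentiable one_ne_zero (y - x)).hasFDerivAt.comp x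
        ((hasFDerivAt_id x).const_sub y)).fderiv
      simp only [ContinuousLinearMap.precompL_apply, ContinuousLinearMap.lsmul_apply, smul_eq_mul]
      erw [this]
      simp
    · refine (closure_minimal (fun x hx => ?_) isClosed_closedBall).trans (hA y hy)
      have : y - x ∈ support ((b i).normed μ) := hx
      rw [(b i).support_normed_eq, mem_ball_zero_iff] at this
      rw [mem_closedBall, dist_comm, dist_eq_norm]
      exact this.le.trans (div_le_self hr.le (by linarith [Nat.cast_nonneg (α := ℝ) i]))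
  choose c hc using key
  have t := ContDiffBump.ae_convolution_tendsto_right_of_locallyIntegrable (μ := μ) (φ := b)
    (l := atTop) (K := 2) (by
      simpa [b, div_eq_mul_inv] using tendsto_one_div_add_atTop_nhds_zero_nat.const_mul r)
    (Eventually.of_forall fun i => by simp only [b]; linarith) hN.locallyIntegrable
  refine ⟨limUnder atTop c, t.mono fun x hx hU => ?_⟩
  simp only [hc _ x hU] at hx
  exact hx.limUnder_eq.symm

theorem count {G : W → W} {G' : W → W →L[ℝ] W} {S : Set W} (hS : MeasurableSet S)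
    (hG : ∀ x ∈ S, HasFDerivWithinAt G (G' x) S x) (md : Measurable fun x => (G' x).det)
    (hi : IntegrableOn (fun x => (G' x).det) S μ) :
    ∃ N : W → ℝ, Integrable N μ ∧ (∀ᵐ y ∂μ, ∃ k : ℤ, N y = k ∧ (InjOn G S → |k| ≤ 1)) ∧
      ∀ F : W → ℝ, Measurable F → ∀ M, (∀ y, |F y| ≤ M) →
        ∫ x in S, F (G x) * (G' x).det ∂μ = ∫ y, F y * N y ∂μ := by
  have key : ∀ δ : ℝ, |δ| = 1 → ∃ N : W → ℝ≥0∞, Measurable N ∧
      (∀ y, N y = (({x ∈ S | 0 < δ * (G' x).det} ∩ G ⁻¹' {y}).encard : ℝ≥0∞)) ∧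
      ∫⁻ y, N y ∂μ ≠ ∞ ∧ ∀ F : W → ℝ, Measurable F →
        ∫ x in {x ∈ S | 0 < δ * (G' x).det}, F (G x) * |(G' x).det| ∂μ =
          ∫ y, F y * (N y).toReal ∂μ := fun δ hδ => by
    have ms : MeasurableSet {x ∈ S | 0 < δ * (G' x).det} :=
      hS.inter (measurableSet_lt measurable_const (md.const_mul δ))
    have hG' : ∀ x ∈ {x ∈ S | 0 < δ * (G' x).det},
        HasFDerivWithinAt G (G' x) {x ∈ S | 0 < δ * (G' x).det} x :=
      fun x hx => (hG x hx.1).mono fun _ k => k.1
    obtain ⟨N, n1, n2, n3⟩ := D3LM.saf1 μ ms hG' fun x hx e => by simpa [e] using hx.2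
    have fin : ∫⁻ y, N y ∂μ ≠ ∞ := by
      have := n3 1 measurable_one
      simp only [Pi.one_apply, mul_one] at this
      rw [← this]
      exact (lt_of_le_of_lt (lintegral_mono fun a => Real.ofReal_le_enorm _)
        (hi.mono_set fun _ k => k.1).abs.2).ne
    refine ⟨N, n1, n2, fin, fun F hF => ?_⟩
    have mG : AEMeasurable G (μ.restrict {x ∈ S | 0 < δ * (G' x).det}) :=
      (ContinuousOn.aemeasurable (fun x hx => (hG' x hx).continuousWithinAt) ms)
    have mo : Measurable fun x => ENNReal.ofReal |(G' x).det| := md.abs.ennreal_ofReal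
    have mG' : AEMeasurable G ((μ.restrict {x ∈ S | 0 < δ * (G' x).det}).withDensity
        fun x => ENNReal.ofReal |(G' x).det|) :=
      mG.mono_ac (withDensity_absolutelyContinuous _ _)
    have e : Measure.map G ((μ.restrict {x ∈ S | 0 < δ * (G' x).det}).withDensity
        fun x => ENNReal.ofReal |(G' x).det|) = μ.withDensity N := by
      ext B hB
      rw [← lintegral_indicator_one hB, ← lintegral_indicator_one hB,
        lintegral_map' (measurable_one.indicator hB).aemeasurable mG',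
        lintegral_withDensity_eq_lintegral_mul _ n1 (measurable_one.indicator hB)]
      exact (lintegral_withDensity_eq_lintegral_mul₀ mo.aemeasurable
        ((measurable_one.indicator hB).comp_aemeasurable mG)).trans
          (n3 _ (measurable_one.indicator hB))
    have e1 := integral_map mG' (f := F) hF.aestronglyMeasurable
    rw [e, integral_withDensity_eq_integral_toReal_smul n1 (ae_lt_top n1 fin),
      integral_withDensity_eq_integral_toReal_smul mo (Eventually.of_forall fun _ =>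
        ENNReal.ofReal_lt_top)] at e1
    simp only [smul_eq_mul, ENNReal.toReal_ofReal (abs_nonneg _)] at e1
    simp only [mul_comm (F _), e1]
  obtain ⟨P, p1, p2, p3, p4⟩ := key 1 abs_one
  obtain ⟨Q, q1, q2, q3, q4⟩ := key (-1) (by simp)
  have ip := integrable_toReal_of_lintegral_ne_top p1.aemeasurable p3
  have iq := integrable_toReal_of_lintegral_ne_top q1.aemeasurable q3
  refine ⟨fun y => (P y).toReal - (Q y).toReal, ip.sub iq, ?_, fun F hF M hM => ?_⟩
  · filter_upwards [ae_lt_top p1 p3, ae_lt_top q1 q3] with y h1 h2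
    have u : ∀ T : Set W, T ⊆ S → ((T ∩ G ⁻¹' {y}).encard : ℝ≥0∞) < ∞ → ∃ n : ℕ,
        ((T ∩ G ⁻¹' {y}).encard : ℝ≥0∞).toReal = n ∧ (InjOn G S → n ≤ 1) := fun T hT h => by
      have f : (T ∩ G ⁻¹' {y}).Finite := by
        rw [← encard_lt_top_iff]
        exact ENat.toENNReal_lt_top.1 h
      refine ⟨(T ∩ G ⁻¹' {y}).ncard, by rw [← f.cast_ncard_eq]; simp, fun j => ?_⟩
      exact (ncard_le_one f).2 fun a ha b hb => j (hT ha.1) (hT hb.1) (ha.2.trans hb.2.symm)
    rw [p2] at h1
    rw [q2] at h2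
    obtain ⟨n, a1, a2⟩ := u _ (fun _ k => k.1) h1
    obtain ⟨m, b1, b2⟩ := u _ (fun _ k => k.1) h2
    refine ⟨n - m, by rw [p2, q2, a1, b1]; simp, fun j => ?_⟩
    have := a2 j
    have := b2 j
    rw [abs_le]
    omega
  · have mG : AEMeasurable G (μ.restrict S) :=
      ContinuousOn.aemeasurable (fun x hx => (hG x hx).continuousWithinAt) hS
    have i0 : IntegrableOn (fun x => F (G x) * (G' x).det) S μ :=
      hi.bdd_mul (c := M) (hF.comp_aemeasurable mG).aestronglyMeasurable
        (Eventually.of_forall fun x => hM _)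
    have ms : ∀ δ : ℝ, MeasurableSet {x | 0 < δ * (G' x).det} := fun δ =>
      measurableSet_lt measurable_const (md.const_mul δ)
    have b := fun (R : W → ℝ) (h : Integrable R μ) => h.bdd_mul (c := M) hF.aestronglyMeasurable
      (Eventually.of_forall fun x => hM x)
    simp only [mul_sub]
    rw [integral_sub (b _ ip) (b _ iq), ← p4 F hF, ← q4 F hF]
    have s : ∀ δ : ℝ, ∫ x in {x ∈ S | 0 < δ * (G' x).det}, F (G x) * |(G' x).det| ∂μ =
        ∫ x in S, {x | 0 < δ * (G' x).det}.indicator (fun x => F (G x) * |(G' x).det|) x ∂μ :=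
      fun δ => by rw [setIntegral_indicator (ms δ)]; rfl
    have i1 : IntegrableOn (fun x => F (G x) * |(G' x).det|) S μ :=
      hi.abs.bdd_mul (c := M) (hF.comp_aemeasurable mG).aestronglyMeasurable
        (Eventually.of_forall fun x => hM _)
    rw [s, s, ← integral_sub (i1.indicator (ms _)) (i1.indicator (ms _))]
    refine integral_congr_ae (Eventually.of_forall fun x => ?_)
    simp only [indicator_apply, mem_ofPred_eq, one_mul, neg_mul, Left.neg_pos_iff]
    rcases lt_trichotomy (G' x).det 0 with h | h | h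
    · simp [h, h.not_gt, abs_of_neg h]
    · simp [h]
    · simp [h, h.not_gt, abs_of_pos h]

/-- The degree. -/
theorem degree {G : W → W} {G' : W → W →L[ℝ] W} {S U A : Set W} {r : ℝ} (hS : MeasurableSet S)
    (hG : ∀ x ∈ S, HasFDerivWithinAt G (G' x) S x) (md : Measurable fun x => (G' x).det)
    (hi : IntegrableOn (fun x => (G' x).det) S μ) (hU : IsOpen U) (hc : IsPreconnected U)
    (ne : U.Nonempty) (hr : 0 < r) (hA : ∀ y ∈ U, closedBall y r ⊆ A)
    (h : ∀ φ, Tst A φ → ∀ ξ, ∫ x in S, fderiv ℝ φ (G x) ξ * (G' x).det ∂μ = 0) :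
    ∃ n : ℤ, (InjOn G S → |n| ≤ 1) ∧ ∀ F : W → ℝ, Measurable F → ∀ M, (∀ y, |F y| ≤ M) →
      (∀ y, y ∉ U → F y = 0) → ∫ x in S, F (G x) * (G' x).det ∂μ = n * ∫ y, F y ∂μ := by
  obtain ⟨N, n1, n2, n3⟩ := count μ hS hG md hi
  obtain ⟨c, hc⟩ := const0 μ n1 hU hc hr hA fun φ hφ ξ => by
    have c0 : Continuous fun x => fderiv ℝ φ x ξ :=
      (hφ.1.continuous_fderiv one_ne_zero).clm_apply continuous_const
    obtain ⟨M, hM⟩ := c0.bounded_above_of_compact_support (hφ.2.1.fderiv_apply (𝕜 := ℝ) ξ)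
    rw [← n3 _ c0.measurable M hM, h φ hφ ξ]
  obtain ⟨y, hy, k, k1, k2⟩ : ∃ y, N y = c ∧ ∃ k : ℤ, N y = k ∧ (InjOn G S → |k| ≤ 1) := by
    have := (hc.and n2).filter_mono (ae_mono (Measure.restrict_le_self (s := U)))
    have nz : NeBot (ae (μ.restrict U)) := ae_neBot.2 fun e =>
      (hU.measure_pos μ ne).ne' (Measure.restrict_eq_zero.1 e)
    obtain ⟨y, h1, h2⟩ := (this.and (ae_restrict_mem hU.measurableSet)).exists
    exact ⟨y, h1.1 h2, h1.2⟩
  refine ⟨k, k2, fun F hF M hM h0 => ?_⟩
  rw [n3 F hF M hM, ← integral_const_mul]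
  refine integral_congr_ae (hc.mono fun x hx => ?_)
  by_cases u : x ∈ U
  · simp only [hx u, ← hy, k1, mul_comm]
  · simp [h0 x u]

end Pool.Agent.MP_3ee8cb_gt.CZG
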