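import Pool.Agent.MP_3ee8cb_gt.CZG.Atl
import Pool.Agent.MP_3ee8cb_gt.CZW.Deg
import Pool.Agent.MP_3ee8cb_gt.D3NB.Bi

/-! Gauss-Bonnet on a Lipschitz atlas: the degree is at most one. -/

namespace Pool.Agent.MP_3ee8cb_gt.CZG

open Set MeasureTheory Filter Topology Metric D3
open D3GB (trip bv aO Sph jac Htp)
open D3NP (dv)
open D3NB (lin3)
open scoped RealInnerProductSpace

noncomputable section

variable {O O₀ : Set V} {K : V → V}

theorem cy_comp (l : V →L[ℝ] ℝ) (n : V) (B D : V →L[ℝ] V) :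
    cy (l.comp D) (fun u v => trip n (B (D u)) (B (D v))) =
      cy l (fun u v => trip n (B u) (B v)) * D.det := by
  have e : ∀ u, l u = u 0 * l (bv 0) + u 1 * l (bv 1) + u 2 * l (bv 2) := fun u => by
    conv_lhs => rw [D3GB.RP2.sum_bv u]
    simp only [map_add, map_smul, smul_eq_mul]
  simp only [cy, ContinuousLinearMap.comp_apply]
  rw [D3GB.rDET3 D, lin3 B (D (bv 0)), lin3 B (D (bv 1)), lin3 B (D (bv 2)), e (D (bv 0)),
    e (D (bv 1)), e (D (bv 2))]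
  simp only [trip, PiLp.add_apply, PiLp.smul_apply, smul_eq_mul]
  ring

theorem wv_comp {ψ : V → ℝ} {H : V → V} {x : V} (h0 : DifferentiableAt ℝ K x)
    (h1 : DifferentiableAt ℝ ψ (K x)) (h2 : DifferentiableAt ℝ H (K x)) :
    wv (ψ ∘ K) (H ∘ K) x = wv ψ H (K x) * (fderiv ℝ K x).det := by
  rw [wv, wv, fderiv_comp x h1 h0, fderiv_comp x h2 h0]
  exact cy_comp _ _ _ _

theorem dv_tst {φ : V → ℝ} {x : V} (ξ : V) (h0 : DifferentiableAt ℝ K x)
    (h1 : DifferentiableAt ℝ φ (K x)) :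
    dv K ((fun a => φ a • ξ) ∘ K) x = fderiv ℝ φ (K x) ξ * (fderiv ℝ K x).det := by
  have e : fderiv ℝ ((fun a => φ a • ξ) ∘ K) x = _ :=
    ((h1.hasFDerivAt.comp x h0.hasFDerivAt).smul_const ξ).fderiv
  have c := cy_comp (fderiv ℝ φ (K x)) ξ (.id ℝ V) (fderiv ℝ K x)
  have e2 : fderiv ℝ φ (K x) ξ = cy (fderiv ℝ φ (K x)) fun u v => trip ξ u v := by
    conv_lhs => rw [D3GB.RP2.sum_bv ξ]
    simp [cy, trip, D3NB.bvv, mul_comm]
  simp only [ContinuousLinearMap.id_apply] at c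
  rw [e2, ← c]
  simp only [dv, e, cy, trip, ContinuousLinearMap.smulRight_apply, PiLp.smul_apply, smul_eq_mul]
  ring

theorem ann {r R : ℝ} (hr : 0 < r) : IsPreconnected {a : V | ‖a‖ ∈ Ioo r R} := by
  have : {a : V | ‖a‖ ∈ Ioo r R} = (fun q : ℝ × V => q.1 • q.2) '' (Ioo r R ×ˢ sphere 0 1) := by
    ext a
    constructor
    · intro h
      have p : 0 < ‖a‖ := hr.trans h.1
      exact ⟨(‖a‖, ‖a‖⁻¹ • a), ⟨h, D3GB.RAPP.unit_mem (norm_pos_iff.1 p)⟩, smul_inv_smul₀ p.ne' a⟩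
    · rintro ⟨q, ⟨h1, h2⟩, rfl⟩
      simpa [norm_smul, mem_sphere_zero_iff_norm.1 h2, abs_of_pos (hr.trans h1.1)] using h1
  rw [this]
  exact (isPreconnected_Ioo.prod (isPreconnected_sphere (by
    rw [← Module.finrank_eq_rank]
    simp) 0 1)).image _ (by fun_prop)

/-- The degree of the atlas. -/
theorem NLA.deg (h : NLA O O₀ K) : ∃ n : ℤ, |n| ≤ 1 ∧ ∀ F : V → ℝ, Measurable F → ∀ M,
    (∀ y, |F y| ≤ M) → (∀ y, ‖y‖ ∉ Ioo (1 : ℝ) 5 → F y = 0) →
      ∫ x in O₀, F (K x) * (fderiv ℝ K x).det = n * ∫ y, F y := by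
  set S := O₀ ∩ (O ∩ K ⁻¹' {a | ‖a‖ ∈ Ioo (1 / 4 : ℝ) 7}) ∩ {x | DifferentiableAt ℝ K x}
  have mS : MeasurableSet S := (h.ms.inter (h.lip.continuousOn.isOpen_inter_preimage h.op
    (isOpen_Ioo.preimage continuous_norm)).measurableSet).inter
      (measurableSet_of_differentiableAt ℝ K)
  have sub : S ⊆ O₀ := fun _ k => k.1.1
  have res : ∀ F : V → ℝ, (∀ y, ‖y‖ ∉ Ioo (1 / 4 : ℝ) 7 → F y = 0) →
      ∫ x in O₀, F (K x) * (fderiv ℝ K x).det = ∫ x in S, F (K x) * (fderiv ℝ K x).det :=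
    fun F hF => setIntegral_eq_of_subset_of_ae_sdiff_eq_zero h.ms.nullMeasurableSet sub (by
      filter_upwards [D3LM.ae_diff volume h.op h.lip] with x h1 h2
      rw [hF _ fun k => h2.2 ⟨⟨h2.1, h.sub h2.1, k⟩, h1 (h.sub h2.1)⟩, zero_mul])
  have c : (0 : ℝ) < 1 / 8 := by norm_num
  have c' : (0 : ℝ) < 7 := by norm_num
  have i := (h.nl id (fun a => (st (1 / 8) a - st 7 a) • a) h.lip
    (h.al fun a k => ((st_c _ k).sub (st_c _ k)).smul contDiffAt_id) _ (shell _ _)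
    (fun k => by simpa using k.1.trans_lt' (lt_min c c')) fun a h1 h2 => by
      rw [(st_j c).sub (st_j c') a h1 h2, zero_smul]).1
  have i2 : IntegrableOn (fun x => (fderiv ℝ K x).det) S := by
    refine ((i.mono_set sub).div_const 3).congr ((ae_restrict_mem mS).mono fun x hx => ?_)
    simp only [dv]
    rw [h.fd hx.1.2.1 isOpen_Ioo hx.1.2.2 _ id fun a _ k => by
      rw [st1 c (by linarith [k.1]), st0 c' k.2.le, sub_zero, one_smul, id], D3GB.rDET3]
    simp only [Function.id_comp, trip]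
    ring
  obtain ⟨n, n1, n2⟩ := degree volume (U := {a : V | ‖a‖ ∈ Ioo (1 : ℝ) 5})
    (A := {a : V | ‖a‖ ∈ Icc (1 / 2 : ℝ) 6}) (r := 1 / 2) mS
    (fun x hx => hx.2.hasFDerivAt.hasFDerivWithinAt)
    (ContinuousLinearMap.continuous_det.measurable.comp (measurable_fderiv ℝ K)) i2
    (isOpen_Ioo.preimage continuous_norm) (ann one_pos) ⟨(2 : ℝ) • bv 0, by
      simp [norm_smul, bv]; norm_num⟩ (by norm_num)
    (fun y hy z hz => by
      have := abs_le.1 ((abs_norm_sub_norm_le z y).trans (mem_closedBall_iff_norm.1 hz))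
      exact ⟨by linarith [hy.1], by linarith [hy.2]⟩)
    fun φ hφ ξ => by
      have z : ∀ a, a ∉ {a : V | ‖a‖ ∈ Icc (1 / 2 : ℝ) 6} → φ =ᶠ[𝓝 a] 0 := fun a k =>
        notMem_tsupport_iff_eventuallyEq.1 fun e => k (hφ.2.2 e)
      rw [← res (fun y => fderiv ℝ φ y ξ) fun y k => by
        rw [fd0 (z y fun e => k ⟨by linarith [e.1], by linarith [e.2]⟩), zero_apply],
        ← (h.nl id (fun a => φ a • ξ) h.lip (h.al fun a _ => hφ.1.contDiffAt.smul contDiffAt_const)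
          _ (shell (1 / 2) 6) (fun k => by norm_num at k) fun a _ k => by
            rw [(z a k).self_of_nhds, Pi.zero_apply, zero_smul]).2]
      exact integral_congr_ae ((h.ae h.lip).mono fun x hx =>
        (dv_tst ξ hx.2 (hφ.1.differentiable one_ne_zero _)).symm)
  refine ⟨n, n1 (h.inj.mono sub), fun F mF M hM h0 => ?_⟩
  rw [res F fun y k => h0 y fun e => k ⟨by linarith [e.1], by linarith [e.2]⟩]
  exact n2 F mF M hM h0

theorem NLA.sphm (h : NLA O O₀ K) {H : V → V} (hH : Sph H)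
    (hb : |∫ v in ball (0 : V) 1, jac H v| ≤ volume.real (ball (0 : V) 1)) :
    |∫ x in O₀, wv (st 2 ∘ K) (H ∘ K) x| ≤ sph fun _ => 1 := by
  obtain ⟨n, n1, n2⟩ := h.deg
  obtain ⟨-, dH, zH, -⟩ := D3GB.rHOM V H hH.h0
  have cJ := D3GB.rJC.1 H hH.h0
  set ψ : ℝ → ℝ := fun r => Real.smoothTransition (r / 2 - 1)
  have cψ : ContDiff ℝ 1 ψ := Real.smoothTransition.contDiff.comp (by fun_prop)
  have z : ∀ r, r ∉ Icc (2 : ℝ) 4 → deriv ψ r = 0 := fun r k => by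
    rcases not_and_or.1 k with k | k
    · rw [EventuallyEq.deriv_eq (f := fun _ => 0) (mem_of_superset (Iio_mem_nhds (not_le.1 k))
        fun s hs => Real.smoothTransition.zero_of_nonpos (by linarith [mem_Iio.1 hs])), deriv_const]
    · rw [EventuallyEq.deriv_eq (f := fun _ => 1) (mem_of_superset (Ioi_mem_nhds (not_le.1 k))
        fun s hs => Real.smoothTransition.one_of_one_le (by linarith [mem_Ioi.1 hs])), deriv_const]
  set f : ℝ → ℝ := fun r => deriv ψ r / max r 1 ^ 2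
  have cf : Continuous f := (cψ.continuous_deriv le_rfl).div (by fun_prop) fun r =>
    (pow_pos (lt_max_of_lt_right one_pos) 2).ne'
  have zf : ∀ r, r ∉ Icc (2 : ℝ) 4 → f r = 0 := fun r k => by simp only [f, z r k, zero_div]
  have ef : ∀ r, f r * r ^ 2 = deriv ψ r := fun r => by
    by_cases k : r ∈ Icc (2 : ℝ) 4
    · simp only [f, max_eq_left (show 1 ≤ r by linarith [k.1])]
      exact div_mul_cancel₀ _ (pow_pos (by linarith [k.1]) 2).ne'
    · rw [zf r k, z r k, zero_mul]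
  have i1 : ∫ r, f r * r ^ 2 = 1 := by
    simp only [ef]
    rw [← setIntegral_eq_integral_of_forall_compl_eq_zero z, integral_Icc_eq_integral_Ioc,
      ← intervalIntegral.integral_of_le (by norm_num), intervalIntegral.integral_deriv_eq_sub
        (fun x _ => cψ.differentiable one_ne_zero x)
        ((cψ.continuous_deriv le_rfl).intervalIntegrable _ _)]
    simp only [ψ]
    norm_num
  have e : ∀ a, a ≠ 0 → wv (st 2) H a = f ‖a‖ * jac H a := fun a ha => by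
    have p := norm_pos_iff.2 ha
    have d : fderiv ℝ (st 2) a = _ := ((cψ.differentiable one_ne_zero ‖a‖).hasDerivAt.comp_hasFDerivAt
      a ((hasStrictFDerivAt_norm_sq a).hasFDerivAt.sqrt (pow_pos p 2).ne' |>.congr_of_eventuallyEq
        (.of_forall fun x => (Real.sqrt_sq (norm_nonneg x)).symm))).fderiv
    rw [wv, d, jac, D3GB.rDET a _ _ ha (zH a ha), ← ef, Real.sqrt_sq p.le]
    simp only [cy, D3GB.ev, smul_apply, innerSL_apply_apply, D3GB.RP2.in_bv, smul_eq_mul,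
      nsmul_eq_mul]
    field_simp
    ring
  obtain ⟨C, hC⟩ := D3GB.XPOL.bdd cJ
  obtain ⟨B, hB⟩ := isCompact_Icc.exists_bound_of_continuousOn (cf.continuousOn (s := Icc 2 4))
  have k := n2 (fun a => f ‖a‖ * jac H a) ((cf.comp continuous_norm).measurable.mul
    (measurable_of_continuousOn_compl_singleton 0 cJ.c0)) (|B| * |C|) (fun y => by
      by_cases k : ‖y‖ ∈ Icc (2 : ℝ) 4
      · rw [abs_mul]
        exact mul_le_mul ((hB _ k).trans (le_abs_self B)) ((hC y fun e => by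
          simpa [e] using k.1.trans_lt' two_pos).trans (le_abs_self C)) (abs_nonneg _)
            (abs_nonneg _)
      · rw [zf _ k, zero_mul, abs_zero]
        positivity) fun y k => by
    rw [zf _ fun e => k ⟨by linarith [e.1], by linarith [e.2]⟩, zero_mul]
  rw [(D3GB.xPOL _ f 2 4 cJ cf two_pos zf).2, i1] at k
  rw [integral_congr_ae ((h.ae h.lip).mono fun x hx => (wv_comp hx.2
    ((st_c 2 (h.ne x hx.1)).differentiableAt one_ne_zero) (dH _ (h.ne x hx.1))).trans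
      (by rw [e _ (h.ne x hx.1)])), k, D3GB.rSPH _ ⟨continuousOn_const, fun _ _ _ => rfl⟩,
    setIntegral_const, abs_mul, abs_mul, smul_eq_mul, mul_one, mul_one,
    abs_of_pos (three_pos (α := ℝ))]
  have : |(n : ℝ)| ≤ 1 := by exact_mod_cast n1
  nlinarith [abs_nonneg (∫ v in ball (0 : V) 1, jac H v), abs_nonneg (n : ℝ)]

theorem NLA.unit (h : NLA O O₀ K) {w L : V → V} {ζ : V → ℝ} {r R : ℝ} {κ : ℝ × V → V}
    (j : Jmp ζ r R) (l1 : LocallyLipschitzOn O (ζ ∘ K)) (l2 : LocallyLipschitzOn O (w ∘ K))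
    (hu : ∀ a, a ≠ 0 → ‖w a‖ = 1) (cw : ContinuousOn w {0}ᶜ)
    (c1 : ContinuousOn κ (Icc 0 1 ×ˢ sphere 0 1))
    (c2 : ∀ s ∈ Icc (0 : ℝ) 1, ∀ p ∈ sphere (0 : V) 1, ‖κ (s, p)‖ = 1)
    (c3 : ∀ p ∈ sphere (0 : V) 1, κ (0, p) = w p) (c4 : ContinuousOn L (sphere 0 1))
    (c5 : ∀ p ∈ sphere (0 : V) 1, ‖L p‖ = 1 ∧ L (κ (1, p)) = p) :
    |∫ x in O₀, wv (ζ ∘ K) (w ∘ K) x| ≤ sph fun _ => 1 := by
  have ne := fun p => D3GB.Asm.ne_of_mem (p := p)
  obtain ⟨H, hH, cl⟩ := D3GB.rAPP w (cw.mono fun p k => ne p k) fun p k => hu p (ne p k)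
  have cH : ∀ a, a ≠ 0 → ContDiffAt ℝ 1 H a := fun a k =>
    hH.h0.c1.contDiffAt (isOpen_compl_singleton.mem_nhds k)
  have hb := CZW.deg H (fun p => κ (1, p)) L (fun q => κ q + (1 - q.1) • (H q.2 - w q.2)) hH
    ⟨c1.add ((by fun_prop : ContinuousOn (fun q : ℝ × V => 1 - q.1) _).smul
      ((hH.h0.c1.continuousOn.sub cw).comp continuousOn_snd fun q k => ne _ k.2)),
      fun s hs p hp e => by
        have := c2 s hs p hp
        rw [eq_neg_of_add_eq_zero_left e, norm_neg, norm_smul, Real.norm_of_nonneg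
          (sub_nonneg.2 hs.2)] at this
        nlinarith [cl p hp, hs.1, norm_nonneg (H p - w p)],
      fun p hp => ⟨1, one_pos, by simp [c3 p hp]⟩, fun p _ => ⟨1, one_pos, by simp⟩⟩ c4
    fun p hp => ⟨c2 1 ⟨zero_le_one, le_rfl⟩ p hp, c5 p hp⟩
  obtain ⟨δ, d0, hδ⟩ := Metric.uniformContinuousOn_iff.1 ((shell 1 2).uniformContinuousOn_of_continuous
    (cw.mono fun a k e => by simpa [mem_singleton_iff.1 e] using k.1.trans_lt' one_pos)) (1 / 2)
      (by norm_num)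
  set ε := min δ 1 / 2
  have e0 : 0 < ε := by positivity
  have e1 : ε ≤ 1 / 2 := by have := min_le_right δ 1; simp only [ε]; linarith
  have e2 : ε < δ := by have := min_le_left δ 1; simp only [ε]; linarith
  set s : V → ℝ := fun a => Real.smoothTransition ((‖a‖ - 1) / ε)
  have s0 : ∀ a, ‖a‖ ≤ 1 → s a = 0 := fun a k => Real.smoothTransition.zero_of_nonpos
    (div_nonpos_of_nonpos_of_nonneg (sub_nonpos.2 k) e0.le)
  have s1 : ∀ a, 1 + ε ≤ ‖a‖ → s a = 1 := fun a k => Real.smoothTransition.one_of_one_le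
    ((one_le_div e0).2 (by linarith))
  set Φ : V × V → V := fun q => q.2 + s q.1 • (H q.1 - q.2)
  have nz : ∀ a, a ≠ 0 → Φ (a, w a) ≠ 0 := fun a ha e => by
    have u := hu a ha
    rcases le_or_gt ‖a‖ 1 with k | k
    · simp only [Φ, s0 a k, zero_smul, add_zero] at e
      simp [e] at u
    rcases le_or_gt (1 + ε) ‖a‖ with k' | k'
    · simp only [Φ, s1 a k', one_smul, add_sub_cancel] at e
      simpa [e] using hH.unit a ha
    have m := D3GB.RAPP.unit_mem ha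
    have p := norm_pos_iff.2 ha
    have t := hδ (‖a‖⁻¹ • a) (by simp [mem_sphere_zero_iff_norm.1 m]) a ⟨k.le, by linarith⟩ (by
      rw [dist_eq_norm, show ‖a‖⁻¹ • a - a = (‖a‖⁻¹ - 1) • a by rw [sub_smul, one_smul], norm_smul,
        Real.norm_eq_abs, abs_of_nonpos (sub_nonpos.2 (inv_le_one_of_one_le₀ k.le)), neg_sub,
        sub_mul, inv_mul_cancel₀ p.ne']
      linarith)
    have t2 := cl _ m
    rw [hH.h0.hom a _ (inv_pos.2 p)] at t2
    have t3 := norm_sub_le_norm_sub_add_norm_sub (H a) (w (‖a‖⁻¹ • a)) (w a)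
    rw [dist_eq_norm] at t
    have e' : w a = -(Real.smoothTransition ((‖a‖ - 1) / ε) • (H a - w a)) :=
      eq_neg_of_add_eq_zero_left e
    rw [e', norm_neg, norm_smul, Real.norm_of_nonneg (Real.smoothTransition.nonneg _)] at u
    nlinarith [Real.smoothTransition.le_one ((‖a‖ - 1) / ε), norm_nonneg (H a - w a),
      Real.smoothTransition.nonneg ((‖a‖ - 1) / ε)]
  set G : V → V := fun a => ‖Φ (a, w a)‖⁻¹ • Φ (a, w a)
  have uG : ∀ a, a ≠ 0 → ‖G a‖ = 1 := fun a k => mem_sphere_zero_iff_norm.1 (D3GB.RAPP.unit_mem (nz a k))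
  have lG : LocallyLipschitzOn O (G ∘ K) :=
    lip_comp (lip_prod h.lip l2) (fun q => ‖Φ q‖⁻¹ • Φ q) fun x hx => by
      have k := h.ne x hx
      have cΦ : ContDiffAt ℝ 1 Φ (K x, w (K x)) := contDiffAt_snd.add
        ((Real.smoothTransition.contDiffAt.comp _ ((((contDiffAt_norm ℝ k).comp (K x, w (K x))
          contDiffAt_fst).sub contDiffAt_const).div_const ε)).smul
            (((cH _ k).comp (K x, w (K x)) contDiffAt_fst).sub contDiffAt_snd))
      exact ((cΦ.norm ℝ (nz _ k)).inv (norm_ne_zero_iff.2 (nz _ k))).smul cΦ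
  have q : (0 : ℝ) < 1 / 4 := by norm_num
  have a1 := h.al fun a => st_c (a := a) (1 / 4)
  have a2 := h.al fun a => st_c (a := a) 2
  have cg : ∀ (c : ℝ) (A B : V → V) (U : Set ℝ), 0 < c → IsOpen U → Icc c (2 * c) ⊆ U →
      (∀ a, a ≠ 0 → ‖a‖ ∈ U → A a = B a) →
      ∫ x in O₀, wv (st c ∘ K) (A ∘ K) x = ∫ x in O₀, wv (st c ∘ K) (B ∘ K) x :=
    fun c A B U hc hU sU e => setIntegral_congr_fun h.ms fun x hx => by
      have hx := h.sub hx
      by_cases k : ‖K x‖ ∈ U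
      · simp only [wv, h.fd hx hU k A B e, Function.comp_apply, e _ (h.ne x hx) k]
      · simp only [wv, (st_j hc).fd h hx ((not_and_or.1 fun e => k (sU e)).imp not_le.1 not_le.1),
          cy0]
  rw [h.wv_eq j (st_j q) l1 a1 l2 hu, cg _ w G (Iio 1) q isOpen_Iio
    (fun t k => k.2.trans_lt (by norm_num)) fun a k1 k2 => by
      simp only [G, Φ, s0 a (le_of_lt k2), zero_smul, add_zero, hu a k1, inv_one, one_smul],
    h.wv_eq (st_j q) (st_j two_pos) a1 a2 lG uG, cg _ G H (Ioi (3 / 2)) two_pos isOpen_Ioi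
      (fun t k => k.1.trans_lt' (by norm_num)) fun a k1 k2 => by
      simp only [G, Φ, s1 a (by linarith [mem_Ioi.1 k2]), one_smul, add_sub_cancel, hH.unit a k1,
        inv_one]]
  exact h.sphm hH hb

/-- Gauss-Bonnet. -/
theorem NLA.gb (h : NLA O O₀ K) {m : MF} (hm : m.OK) {y w L : V → V} {ζ : V → ℝ} {r R : ℝ}
    {κ : ℝ × V → V} (j : Jmp ζ r R) (l1 : LocallyLipschitzOn O (ζ ∘ K))
    (l2 : LocallyLipschitzOn O (w ∘ K)) (l3 : LocallyLipschitzOn O (y ∘ K))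
    (hu : ∀ a, a ≠ 0 → ‖w a‖ = 1) (cw : ContinuousOn w {0}ᶜ)
    (c1 : ContinuousOn κ (Icc 0 1 ×ˢ sphere 0 1))
    (c2 : ∀ s ∈ Icc (0 : ℝ) 1, ∀ p ∈ sphere (0 : V) 1, ‖κ (s, p)‖ = 1)
    (c3 : ∀ p ∈ sphere (0 : V) 1, κ (0, p) = w p) (c4 : ContinuousOn L (sphere 0 1))
    (c5 : ∀ p ∈ sphere (0 : V) 1, ‖L p‖ = 1 ∧ L (κ (1, p)) = p) :
    IntegrableOn (eul m (ζ ∘ K) (y ∘ K) (w ∘ K)) O₀ ∧
      |∫ x in O₀, eul m (ζ ∘ K) (y ∘ K) (w ∘ K) x| ≤ sph fun _ => 1 := by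
  open D3GB.RP2 in
  have cx : ContDiff ℝ 1 (xi m) := contDiff_const.clm_comp hm.com
  have t := fun i : Fin 3 => h.tv0 (β := fun a => ⟪w a, xi m (y a) (bv i)⟫) (γ := fun a => y a i)
    j l1 (lip_comp (lip_prod l2 l3) (fun q : V × V => ⟪q.1, xi m q.2 (bv i)⟫) fun _ _ =>
      contDiffAt_fst.inner ℝ ((cx.contDiffAt.comp _ contDiffAt_snd).clm_apply contDiffAt_const))
    (lip_comp l3 (fun q : V => q i) fun _ _ => by fun_prop)
  have i0 := h.wv_int j l1 l2 hu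
  have e : eul m (ζ ∘ K) (y ∘ K) (w ∘ K) =ᵐ[volume.restrict O₀] fun x =>
      wv (ζ ∘ K) (w ∘ K) x - ∑ i, tv (ζ ∘ K) ((fun a => ⟪w a, xi m (y a) (bv i)⟫) ∘ K)
        ((fun a => y a i) ∘ K) x := by
    filter_upwards [h.ae l2, h.ae l3] with x h2 h3
    have u := h.ev h2.1 isOpen_univ trivial fun a k _ => hu a k
    have n : ⟪(w ∘ K) x, (w ∘ K) x⟫ = 1 := by
      rw [real_inner_self_eq_norm_sq, Function.comp_apply, u.self_of_nhds, one_pow]
    have o := perp h2.2 u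
    have b := fun c e => fd_be h2.2 (cx.differentiable one_ne_zero _) h3.2 c e
    have c := fun i e => fd_co h3.2 i e
    have k : ∀ a b : V, trip ((w ∘ K) x) (fderiv ℝ (w ∘ K) x a + m.om ((y ∘ K) x)
        (fderiv ℝ (y ∘ K) x a) ((w ∘ K) x)) (fderiv ℝ (w ∘ K) x b + m.om ((y ∘ K) x)
        (fderiv ℝ (y ∘ K) x b) ((w ∘ K) x)) - ⟪(w ∘ K) x, aO m ((y ∘ K) x)
        (fderiv ℝ (y ∘ K) x a) (fderiv ℝ (y ∘ K) x b)⟫ =
        trip ((w ∘ K) x) (fderiv ℝ (w ∘ K) x a) (fderiv ℝ (w ∘ K) x b) - ∑ i : Fin 3,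
          (fderiv ℝ (fun z => ⟪(w ∘ K) z, xi m ((y ∘ K) z) (bv i)⟫) x a *
            fderiv ℝ (fun z => (y ∘ K) z i) x b -
          fderiv ℝ (fun z => ⟪(w ∘ K) z, xi m ((y ∘ K) z) (bv i)⟫) x b *
            fderiv ℝ (fun z => (y ∘ K) z i) x a) := fun p q => by
      rw [om_cr hm, om_cr hm, alg _ _ _ _ _ n (o p) (o q), aO_eq hm]
      simp only [b, c, inner_add_right, inner_sub_right, Fin.sum_univ_three]
      rw [inner_sum (fderiv ℝ (w ∘ K) x p) (xi m _) (fderiv ℝ (y ∘ K) x q),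
        inner_sum (fderiv ℝ (w ∘ K) x q) (xi m _) (fderiv ℝ (y ∘ K) x p),
        inner_sum ((w ∘ K) x) (fderiv ℝ (xi m) _ (fderiv ℝ (y ∘ K) x p)) (fderiv ℝ (y ∘ K) x q),
        inner_sum ((w ∘ K) x) (fderiv ℝ (xi m) _ (fderiv ℝ (y ∘ K) x q)) (fderiv ℝ (y ∘ K) x p)]
      ring
    simp only [eul, k]
    simp only [wv, tv, cy, Fin.sum_univ_three, Function.comp_def]
    ring
  have i1 := integrable_finsetSum Finset.univ fun i _ => (t i).1
  refine ⟨(i0.sub i1).congr e.symm, ?_⟩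
  rw [integral_congr_ae e, integral_sub i0 i1, integral_finsetSum _ fun i _ => (t i).1]
  simp only [fun i => (t i).2, Finset.sum_const_zero, sub_zero]
  exact h.unit j l1 l2 hu cw c1 c2 c3 c4 c5

end

end Pool.Agent.MP_3ee8cb_gt.CZG
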